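import Mathlib
import Pool.Agent.H320.Dp.Cantor

set_option autoImplicit false

open scoped ContDiff

namespace Pool.Agent.Results.MP_3070fc_an.OrientationPreserving

open Pool.Agent.Helper320.Refl Pool.Agent.Helper320.NoMin Pool.Agent.H320.Dp

/-- There are a finitely generated group `G` and a faithful action `φ₀` of `G` on the circle by
orientation preserving `C^∞` diffeomorphisms (each `φ₀ g` has a `C^∞` lift to the line with positive
derivative) with an exceptional minimal set (a minimal set that is a Cantor set), while no faithful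
action of `G` on the circle by homeomorphisms is minimal. -/
theorem result : ∃ (G : Type) (_ : Group G) (_ : Group.FG G) (φ₀ : G → Circle → Circle),
    -- a faithful action by orientation preserving `C^∞` diffeomorphisms
    (φ₀ 1 = id ∧ (∀ g h : G, φ₀ (g * h) = φ₀ g ∘ φ₀ h) ∧ Function.Injective φ₀ ∧
      ∀ g : G, ∃ F : ℝ → ℝ, ContDiff ℝ ∞ F ∧ (∀ t, 0 < deriv F t) ∧
        ∀ t, φ₀ g (Circle.exp t) = Circle.exp (F t)) ∧
    -- with a minimal set which is a Cantor set
    (∃ K : Set Circle, K.Nonempty ∧ Perfect K ∧ IsTotallyDisconnected K ∧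
      (∀ g : G, φ₀ g '' K ⊆ K) ∧
      (∀ L : Set Circle, L ⊆ K → IsClosed L → L.Nonempty → (∀ g : G, φ₀ g '' L ⊆ L) → L = K)) ∧
    -- no faithful action of `G` on the circle by homeomorphisms is minimal
    (∀ ψ : G → Circle → Circle, ψ 1 = id → (∀ g h : G, ψ (g * h) = ψ g ∘ ψ h) →
      Function.Injective ψ → (∀ g : G, Continuous (ψ g)) →
      ¬ ∀ x : Circle, Dense {y : Circle | ∃ g : G, ψ g x = y}) := by
  obtain ⟨c, hcs, hcs', hcV, hcc⟩ := exists_bump
  set φ₀ : Gp c → Circle → Circle := fun g z => (g : Equiv.Perm Circle) z with hφ₀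
  have hcontG : ∀ g : Gp c, Continuous (φ₀ g) := fun g => SmL.cont (SmS.toSmL (pos_mem hcs hcs' hcV g.2))
  have hone : φ₀ 1 = id := rfl
  have hmul : ∀ g h : Gp c, φ₀ (g * h) = φ₀ g ∘ φ₀ h := fun _ _ => rfl
  refine ⟨Gp c, inferInstance, inferInstance, φ₀, ⟨hone, hmul, ?_, ?_⟩, ?_, ?_⟩
  · intro g h hgh
    apply Subtype.ext
    ext x
    exact congrArg _ (congrFun hgh x)
  · intro g
    obtain ⟨F, hF, hp, hF2⟩ := pos_mem hcs hcs' hcV g.2
    exact ⟨F, contDiff_infty.2 hF, fun t => by simpa using hp t, hF2⟩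
  · set Y : Set Circle := ⋂ g : Gp c, (φ₀ g) ⁻¹' Vᶜ with hY
    have hYmem : ∀ x, x ∈ Y ↔ ∀ g : Gp c, φ₀ g x ∉ V := fun x => by simp [hY]
    have hYc : IsClosed Y := isClosed_iInter fun g => isOpen_V.isClosed_compl.preimage (hcontG g)
    have hYne : Y.Nonempty := ⟨Circle.exp (Real.pi / 3), (hYmem _).2 fun g =>
      orbit_avoid hcV base_not_V (fun j => R_mem (base_not_A j)) (Gp_le c g.2)⟩
    have hYi : ∀ g, φ₀ g '' Y ⊆ Y := by
      rintro g _ ⟨x, hx, rfl⟩
      rw [hYmem] at hx ⊢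
      intro h
      exact hx (h * g)
    obtain ⟨K, hKY, hKc, hKne, hKi, hKmin⟩ := exists_minimal φ₀ hYc hYne hYi
    have hinf : K.Infinite := by
      intro hfin
      have hRR : ∀ i j, ∀ x ∈ K, R i (R j x) ∈ K := fun i j x hx =>
        hKi ⟨R i * R j, RR_mem c i j⟩ ⟨x, hx, rfl⟩
      refine no_finite (K := K ∪ R 0 '' K) (hfin.union (hfin.image _)) (hKne.mono Set.subset_union_left)
        (fun k x hx => ?_)
      rcases hx with hx | ⟨y, hy, rfl⟩
      · exact Or.inr ⟨R 0 (R k x), hRR 0 k x hx, R_R 0 _⟩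
      · exact Or.inl (hRR k 0 y hy)
    have hne : K ≠ Set.univ := by
      intro huniv
      have h1 : Circle.exp Real.pi ∈ K := by rw [huniv]; trivial
      exact (hYmem _).1 (hKY h1) 1 pi_mem_V
    obtain ⟨hp, htd⟩ := cantor_of_minimal φ₀ hone hmul hcontG hKc hKne hKi hKmin hinf hne
    exact ⟨K, hKne, hp, htd, hKi, hKmin⟩
  · intro ψ h1 h2 h3 h4 h5
    refine no_minimal ψ h1 h2 h4 h3 h5 ⟨c, c_mem_Gp c⟩ ⟨R 0 * R 1, R01 c⟩ ?_ ?_
    · intro h
      obtain ⟨w, hw, e⟩ := conj_eq hcV (Gp_le c h.2)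
      have : Commute c ((h : Equiv.Perm Circle) * c * (h : Equiv.Perm Circle)⁻¹) := by
        rw [e]; exact comm_Wg hcV hw
      exact Subtype.ext this
    · intro h
      have h' : (c ^ 2 * ((R 0 * R 1) ^ 2 * c ^ 2 * ((R 0 * R 1) ^ 2)⁻¹)⁻¹ : Equiv.Perm Circle) = 1 :=
        congrArg Subtype.val h
      set x := Circle.exp Real.pi
      have hx : ((R 0 * R 1) ^ 2)⁻¹ x ∉ V := by
        have e : (((R 0 * R 1) ^ 2)⁻¹ : Equiv.Perm Circle) =
            (([1, 0, 1, 0] : List (Fin 3)).map R).prod := by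
          simp only [List.map_cons, List.map_nil, List.prod_cons, List.prod_nil, mul_one]
          rw [pow_two, mul_inv_rev, mul_inv_rev, R_inv, R_inv]
          group
        rw [e]
        intro hV
        exact V_not_A hV 1 (word_mem [0, 1, 0] 1 (by decide) x (V_base pi_mem_V))
      have h3 : ((R 0 * R 1) ^ 2 * c ^ 2 * ((R 0 * R 1) ^ 2)⁻¹)⁻¹ x = x := by
        rw [Equiv.Perm.inv_eq_iff_eq]
        show x = ((R 0 * R 1) ^ 2) (c (c ((((R 0 * R 1) ^ 2)⁻¹ : Equiv.Perm Circle) x)))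
        rw [hcV _ hx, hcV _ hx]
        simp
      have h4 := congrArg (fun f : Equiv.Perm Circle => f x) h'
      simp only [Equiv.Perm.mul_apply, h3] at h4
      exact hcc h4

end Pool.Agent.Results.MP_3070fc_an.OrientationPreserving
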